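import Pool.Agent.H88.BR.MvTan
import Pool.Agent.H28.BR.Stm5

/-!
# Project BR4, module MV
-/

set_option autoImplicit false

namespace Pool.Agent.H88.BR4

open Finset Filter Topology

theorem t_MV : Pool.Agent.H28.BR4.S_MV := by
  intro c hc8 hodd
  exact mv_core hc8 hodd

end Pool.Agent.H88.BR4
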