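import Mathlib

/-!
# Mean value of `μ²(d) (φ(d)/d)² ∏_{p | d} p/(p+1)` in the odd residue classes modulo `8`
-/

set_option autoImplicit false

namespace Pool.Agent.H88.BR4

open Finset Filter Topology ArithmeticFunction
open scoped ArithmeticFunction.zeta ArithmeticFunction.Moebius

noncomputable section

/-- `(φ(d)/d)² ∏_{p | d} p/(p+1)` -/
def hc (d : ℕ) : ℝ := ((d.totient : ℝ) / d) ^ 2 * ∏ p ∈ d.primeFactors, (p : ℝ) / ((p : ℝ) + 1)

/-- `μ²(d) hc(d)` -/
def fc : ArithmeticFunction ℝ := ⟨fun d => if Squarefree d then hc d else 0, by simp⟩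

theorem fc_apply (d : ℕ) : fc d = if Squarefree d then hc d else 0 := rfl

theorem hc_one : hc 1 = 1 := by simp [hc]

theorem hc_mul {m n : ℕ} (h : m.Coprime n) : hc (m * n) = hc m * hc n := by
  unfold hc
  rw [Nat.totient_mul h, h.primeFactors_mul, Finset.prod_union h.disjoint_primeFactors]
  push_cast
  rw [mul_div_mul_comm]
  ring

theorem fc_mult : fc.IsMultiplicative := by
  refine ⟨by rw [fc_apply, if_pos squarefree_one, hc_one], fun {m n} h => ?_⟩
  rw [fc_apply, fc_apply, fc_apply]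
  have hs := Nat.squarefree_mul h
  by_cases h1 : Squarefree m
  · by_cases h2 : Squarefree n
    · rw [if_pos (hs.2 ⟨h1, h2⟩), if_pos h1, if_pos h2, hc_mul h]
    · rw [if_neg (fun h3 => h2 (hs.1 h3).2), if_neg h2, mul_zero]
  · rw [if_neg (fun h3 => h1 (hs.1 h3).1), if_neg h1, zero_mul]

/-- `h(p)` -/
def hp (p : ℕ) : ℝ := (1 - 1 / (p : ℝ)) ^ 2 * ((p : ℝ) / ((p : ℝ) + 1))

theorem hc_prime {p : ℕ} (h : p.Prime) : hc p = hp p := by
  unfold hc hp
  rw [Nat.totient_prime h, h.primeFactors, Finset.prod_singleton, Nat.cast_sub h.one_lt.le]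
  have : (p : ℝ) ≠ 0 := by exact_mod_cast h.ne_zero
  congr 2
  push_cast
  field_simp

/-- the divisor coefficients -/
def bt : ArithmeticFunction ℝ := ((μ : ArithmeticFunction ℤ) : ArithmeticFunction ℝ) * fc

theorem bt_mult : bt.IsMultiplicative := isMultiplicative_moebius.intCast.mul fc_mult

theorem fc_sum (d : ℕ) : fc d = ∑ n ∈ d.divisors, bt n := by
  have : fc = ((ζ : ArithmeticFunction ℕ) : ArithmeticFunction ℝ) * bt := by
    unfold bt
    rw [← mul_assoc, coe_zeta_mul_coe_moebius, one_mul]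
  rw [this, coe_zeta_mul_apply]

theorem bt_pow {p : ℕ} (h : p.Prime) (k : ℕ) : bt (p ^ (k + 1)) = fc (p ^ (k + 1)) - fc (p ^ k) := by
  rw [fc_sum, fc_sum, Nat.sum_divisors_prime_pow h, Nat.sum_divisors_prime_pow h,
    Finset.sum_range_succ _ (k + 1)]
  ring

theorem fc_pow {p : ℕ} (h : p.Prime) (k : ℕ) : fc (p ^ (k + 2)) = 0 := by
  rw [fc_apply, if_neg]
  intro hs
  have := (Nat.squarefree_pow_iff h.one_lt.ne' (by omega : k + 2 ≠ 0)).1 hs
  omega

theorem fc_prime {p : ℕ} (h : p.Prime) : fc p = hp p := by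
  rw [fc_apply, if_pos h.squarefree, hc_prime h]

theorem bt1 {p : ℕ} (h : p.Prime) : bt (p ^ 1) = hp p - 1 := by
  have := bt_pow h 0
  rw [zero_add, pow_one, pow_zero, fc_prime h, fc_apply, if_pos squarefree_one, hc_one] at this
  rw [pow_one]
  exact this

theorem bt2 {p : ℕ} (h : p.Prime) : bt (p ^ 2) = - hp p := by
  have := bt_pow h 1
  rw [show 1 + 1 = 0 + 2 by rfl, fc_pow h 0, pow_one, fc_prime h] at this
  rw [show 2 = 0 + 2 by rfl, this]
  ring

theorem bt3 {p : ℕ} (h : p.Prime) (k : ℕ) : bt (p ^ (k + 3)) = 0 := by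
  have := bt_pow h (k + 2)
  rw [fc_pow h k, show k + 2 + 1 = (k + 1) + 2 by ring, fc_pow h (k + 1)] at this
  rw [show k + 3 = k + 1 + 2 by ring, this]
  ring

theorem hp_nonneg (p : ℕ) : 0 ≤ hp p := by unfold hp; positivity

theorem hp_le_one {p : ℕ} (h : p.Prime) : hp p ≤ 1 := by
  unfold hp
  have h2 : (2 : ℝ) ≤ p := by exact_mod_cast h.two_le
  have h3 : 0 ≤ 1 - 1 / (p : ℝ) := by
    rw [sub_nonneg, div_le_one (by linarith)]
    linarith
  have h4 : 1 - 1 / (p : ℝ) ≤ 1 := by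
    have : 0 < 1 / (p : ℝ) := by positivity
    linarith
  have h5 : (p : ℝ) / ((p : ℝ) + 1) ≤ 1 := by
    rw [div_le_one (by linarith)]
    linarith
  have h6 : (1 - 1 / (p : ℝ)) ^ 2 ≤ 1 := pow_le_one₀ h3 h4
  have h7 : 0 ≤ (p : ℝ) / ((p : ℝ) + 1) := by positivity
  nlinarith [sq_nonneg (1 - 1 / (p : ℝ))]

theorem hp_ge {p : ℕ} (h : p.Prime) : 1 - hp p ≤ 3 / (p : ℝ) := by
  unfold hp
  have h2 : (2 : ℝ) ≤ p := by exact_mod_cast h.two_le
  have h0 : (p : ℝ) ≠ 0 := by linarith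
  have h1 : (p : ℝ) + 1 ≠ 0 := by linarith
  have e : 3 / (p : ℝ) - (1 - (1 - 1 / (p : ℝ)) ^ 2 * ((p : ℝ) / ((p : ℝ) + 1))) =
      (4 : ℝ) / ((p : ℝ) * ((p : ℝ) + 1)) := by
    field_simp
    ring
  have h3 : 0 ≤ (4 : ℝ) / ((p : ℝ) * ((p : ℝ) + 1)) := by positivity
  linarith

/-- the coefficients of the odd divisors -/
def gc (n : ℕ) : ℝ := if Odd n then bt n / n else 0

theorem gc_zero : gc 0 = 0 := by simp [gc]

theorem gc_one : gc 1 = 1 := by
  simp [gc, bt_mult.1]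

theorem gc_mul {m n : ℕ} (h : m.Coprime n) : gc (m * n) = gc m * gc n := by
  unfold gc
  by_cases h1 : Odd m <;> by_cases h2 : Odd n
  · rw [if_pos (h1.mul h2), if_pos h1, if_pos h2, bt_mult.2 h]
    push_cast
    rw [mul_div_mul_comm]
  · rw [if_neg (fun h3 => h2 (Nat.odd_mul.1 h3).2), if_neg h2, mul_zero]
  · rw [if_neg (fun h3 => h1 (Nat.odd_mul.1 h3).1), if_neg h1, zero_mul]
  · rw [if_neg (fun h3 => h2 (Nat.odd_mul.1 h3).2), if_neg h2, mul_zero]

theorem gc_two (k : ℕ) : gc (2 ^ (k + 1)) = 0 := by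
  unfold gc
  rw [if_neg]
  rw [Nat.not_odd_iff_even, pow_succ]
  exact even_two.mul_left _

theorem gc_pow3 {p : ℕ} (h : p.Prime) (k : ℕ) : gc (p ^ (k + 3)) = 0 := by
  unfold gc
  rw [bt3 h]
  simp

/-- the local sums -/
theorem gc_loc {p : ℕ} (h : p.Prime) : HasSum (fun e : ℕ => gc (p ^ e))
    (if p = 2 then 1 else 1 + (hp p - 1) / p + (- hp p) / (p : ℝ) ^ 2) := by
  have h1 : HasSum (fun e : ℕ => gc (p ^ e)) (∑ e ∈ range 3, gc (p ^ e)) := by
    refine hasSum_sum_of_ne_finset_zero fun e he => ?_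
    rw [Finset.mem_range, not_lt] at he
    obtain ⟨k, rfl⟩ : ∃ k, e = k + 3 := ⟨e - 3, by omega⟩
    exact gc_pow3 h k
  have e0 : (if p = 2 then (1 : ℝ) else 1 + (hp p - 1) / p + (- hp p) / (p : ℝ) ^ 2) =
      ∑ e ∈ range 3, gc (p ^ e) := by
    rw [Finset.sum_range_succ, Finset.sum_range_succ, Finset.sum_range_one, pow_zero, gc_one]
    split_ifs with h2
    · subst h2
      rw [gc_two 0, show (2 : ℕ) ^ 2 = 2 ^ (1 + 1) by rfl, gc_two 1]
      norm_num
    · have ho : Odd p := h.odd_of_ne_two h2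
      unfold gc
      rw [if_pos (ho.pow), if_pos (ho.pow), bt1 h, bt2 h]
      push_cast
      rw [pow_one]
  rw [e0]
  exact h1

theorem gc_loc_norm {p : ℕ} (h : p.Prime) : Summable (fun e : ℕ => ‖gc (p ^ e)‖) ∧
    ∑' e : ℕ, ‖gc (p ^ e)‖ ≤ 1 + 4 / (p : ℝ) ^ 2 := by
  have h1 : HasSum (fun e : ℕ => ‖gc (p ^ e)‖) (∑ e ∈ range 3, ‖gc (p ^ e)‖) := by
    refine hasSum_sum_of_ne_finset_zero fun e he => ?_
    rw [Finset.mem_range, not_lt] at he
    obtain ⟨k, rfl⟩ : ∃ k, e = k + 3 := ⟨e - 3, by omega⟩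
    rw [gc_pow3 h k, norm_zero]
  refine ⟨h1.summable, ?_⟩
  rw [h1.tsum_eq, Finset.sum_range_succ, Finset.sum_range_succ, Finset.sum_range_one, pow_zero,
    gc_one, norm_one]
  have hp0 : (0 : ℝ) < p := by exact_mod_cast h.pos
  have h3 : ‖gc (p ^ 1)‖ ≤ 3 / (p : ℝ) ^ 2 := by
    unfold gc
    split_ifs
    · rw [bt1 h, Real.norm_eq_abs, abs_div, pow_one, Nat.abs_cast, abs_sub_comm,
        abs_of_nonneg (by linarith [hp_le_one h])]
      calc (1 - hp p) / (p : ℝ) ≤ (3 / (p : ℝ)) / p := by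
            gcongr
            exact hp_ge h
        _ = 3 / (p : ℝ) ^ 2 := by rw [div_div, sq]
    · rw [norm_zero]
      positivity
  have h4 : ‖gc (p ^ 2)‖ ≤ 1 / (p : ℝ) ^ 2 := by
    unfold gc
    split_ifs
    · rw [bt2 h, Real.norm_eq_abs, abs_div, Nat.abs_cast, abs_neg, abs_of_nonneg (hp_nonneg p)]
      push_cast
      gcongr
      exact hp_le_one h
    · rw [norm_zero]
      positivity
  have e : (4 : ℝ) / (p : ℝ) ^ 2 = 3 / (p : ℝ) ^ 2 + 1 / (p : ℝ) ^ 2 := by ring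
  linarith

theorem gc_summable : Summable (fun n : ℕ => ‖gc n‖) := by
  have hsq : Summable (fun n : ℕ => (4 : ℝ) / (n : ℝ) ^ 2) := by
    have := (Real.summable_one_div_nat_pow (p := 2)).2 (by norm_num)
    refine (this.mul_left 4).congr fun n => ?_
    rw [mul_one_div]
  refine summable_of_sum_range_le (c := Real.exp (∑' n : ℕ, (4 : ℝ) / (n : ℝ) ^ 2))
    (fun n => norm_nonneg _) fun N => ?_
  obtain ⟨s1, s2⟩ := EulerProduct.summable_and_hasSum_smoothNumbers_prod_primesBelow_tsum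
    (f := fun n => ‖gc n‖) (by simp [gc_one]) (fun {m n} h => by rw [gc_mul h, norm_mul])
    (fun {p} hp => by simpa using (gc_loc_norm hp).1) N
  have h1 : ∑ n ∈ range N, ‖gc n‖ ≤ ∑' m : N.smoothNumbers, ‖gc m‖ := by
    have e1 : ∑ n ∈ range N, ‖gc n‖ = ∑ n ∈ (range N).filter (fun n => n ∈ N.smoothNumbers), ‖gc n‖ := by
      rw [Finset.sum_filter]
      refine Finset.sum_congr rfl fun n hn => ?_
      rw [Finset.mem_range] at hn
      by_cases h0 : n = 0
      · subst h0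
        simp [gc_zero]
      · rw [if_pos (Nat.mem_smoothNumbers_of_lt (Nat.pos_of_ne_zero h0) hn)]
    have hs : Summable (fun m : N.smoothNumbers => ‖gc m‖) := s2.summable
    have e2 : ∑ n ∈ (range N).filter (fun n => n ∈ N.smoothNumbers), ‖gc n‖ =
        ∑ m ∈ (range N).subtype (fun n => n ∈ N.smoothNumbers), ‖gc (m : ℕ)‖ :=
      (Finset.sum_subtype_eq_sum_filter (s := range N) (fun n => ‖gc n‖)).symm
    rw [e1, e2]
    exact hs.sum_le_tsum _ fun _ _ => norm_nonneg _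
  refine h1.trans ?_
  rw [s2.tsum_eq]
  calc ∏ p ∈ N.primesBelow, ∑' e : ℕ, ‖gc (p ^ e)‖
      ≤ ∏ p ∈ N.primesBelow, Real.exp (4 / (p : ℝ) ^ 2) := by
        refine Finset.prod_le_prod (fun p _ => tsum_nonneg fun _ => norm_nonneg _) fun p hp => ?_
        have h2 := (gc_loc_norm (Nat.prime_of_mem_primesBelow hp)).2
        have h3 := Real.add_one_le_exp (4 / (p : ℝ) ^ 2)
        linarith
    _ = Real.exp (∑ p ∈ N.primesBelow, 4 / (p : ℝ) ^ 2) := (Real.exp_sum _ _).symm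
    _ ≤ Real.exp (∑' n : ℕ, (4 : ℝ) / (n : ℝ) ^ 2) := by
        rw [Real.exp_le_exp]
        exact hsq.sum_le_tsum _ fun _ _ => by positivity

/-- the Euler product -/
theorem gc_euler : ∏' p : Nat.Primes, (if (p : ℕ) = 2 then (1 : ℝ) else
    (1 - 1 / ((p : ℕ) : ℝ)) * (1 + (1 - 1 / ((p : ℕ) : ℝ)) ^ 2 / (((p : ℕ) : ℝ) + 1))) = ∑' n, gc n := by
  have h1 := EulerProduct.eulerProduct_hasProd gc_one (fun {m n} h => gc_mul h) gc_summable gc_zero
  rw [← h1.tprod_eq]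
  refine tprod_congr fun p => ?_
  rw [(gc_loc p.2).tsum_eq]
  split_ifs with h2
  · rfl
  · have h0 : ((p : ℕ) : ℝ) ≠ 0 := by exact_mod_cast p.2.ne_zero
    have h3 : ((p : ℕ) : ℝ) + 1 ≠ 0 := by positivity
    unfold hp
    field_simp
    ring

end

end Pool.Agent.H88.BR4
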