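import Pool.Agent.H88.BR.MvCore

/-!
# Mean value: dominated convergence
-/

set_option autoImplicit false

namespace Pool.Agent.H88.BR4

open Finset Filter Topology ArithmeticFunction

noncomputable section

/-- the number of the multiples of `n` up to `X` in the residue class `c` modulo `8` -/
def cn (c X n : ℕ) : ℕ := ((Icc 1 X).filter (fun d => d % 8 = c ∧ n ∣ d)).card

theorem cn_even {c : ℕ} (hc : Odd c) (X : ℕ) {n : ℕ} (hn : ¬ Odd n) : cn c X n = 0 := by
  unfold cn
  rw [Finset.card_eq_zero, Finset.filter_eq_empty_iff]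
  rintro d - ⟨h1, h2⟩
  rw [Nat.not_odd_iff_even] at hn
  have h3 : 2 ∣ d := (even_iff_two_dvd.1 hn).trans h2
  obtain ⟨k, hk⟩ := hc
  omega

theorem cn_le (c X n : ℕ) : cn c X n ≤ X / n := by
  unfold cn
  have h1 : ((Ioc 0 X).filter (fun d => n ∣ d)).card = X / n := Nat.Ioc_filter_dvd_card_eq_div X n
  rw [← h1]
  refine Finset.card_le_card fun d hd => ?_
  rw [Finset.mem_filter, Finset.mem_Icc] at hd
  rw [Finset.mem_filter, Finset.mem_Ioc]
  exact ⟨⟨by omega, hd.1.2⟩, hd.2.2⟩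

theorem cn_near {c : ℕ} (hc8 : c < 8) {n : ℕ} (hn : Odd n) (X : ℕ) :
    |(cn c X n : ℝ) - X / (8 * n)| ≤ 1 := by
  have hn0 : 0 < n := hn.pos
  have hco : Nat.Coprime 8 n := by
    have : Nat.Coprime 2 n := Nat.coprime_two_left.2 hn
    simpa using this.pow_left 3
  obtain ⟨v, hv1, hv2⟩ := Nat.chineseRemainder hco c 0
  have e : cn c X n = ((Ioc 0 X).filter (fun d => d ≡ v [MOD (8 * n)])).card := by
    unfold cn
    congr 1
    ext d
    rw [Finset.mem_filter, Finset.mem_filter, Finset.mem_Icc, Finset.mem_Ioc,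
      ← Nat.modEq_and_modEq_iff_modEq_mul hco]
    have h1 : d % 8 = c ↔ d ≡ v [MOD 8] := by
      constructor
      · intro h
        refine Nat.ModEq.trans ?_ hv1.symm
        rw [Nat.ModEq, h, Nat.mod_eq_of_lt hc8]
      · intro h
        have h2 := h.trans hv1
        rw [Nat.ModEq, Nat.mod_eq_of_lt hc8] at h2
        exact h2
    have h2 : n ∣ d ↔ d ≡ v [MOD n] := by
      constructor
      · intro h
        exact ((Nat.modEq_zero_iff_dvd).2 h).trans hv2.symm
      · intro h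
        exact (Nat.modEq_zero_iff_dvd).1 (h.trans hv2)
    rw [h1, h2]
    constructor
    · rintro ⟨⟨a, b⟩, h⟩
      exact ⟨⟨by omega, b⟩, h⟩
    · rintro ⟨⟨a, b⟩, h⟩
      exact ⟨⟨by omega, b⟩, h⟩
  have hr : 0 < 8 * n := by omega
  have h3 := Nat.Ioc_filter_modEq_card 0 X hr v
  rw [← e] at h3
  set A : ℚ := ((X : ℚ) - v) / ((8 * n : ℕ) : ℚ) with hA
  set B : ℚ := (((0 : ℕ) : ℚ) - v) / ((8 * n : ℕ) : ℚ) with hB
  have h4 : (cn c X n : ℤ) = max (⌊A⌋ - ⌊B⌋) 0 := h3
  have h5 : A - B = (X : ℚ) / ((8 * n : ℕ) : ℚ) := by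
    rw [hA, hB]
    push_cast
    ring
  have hAB : B ≤ A := by
    have : 0 ≤ (X : ℚ) / ((8 * n : ℕ) : ℚ) := by positivity
    linarith
  have h6 : (0 : ℤ) ≤ ⌊A⌋ - ⌊B⌋ := sub_nonneg.2 (Int.floor_le_floor hAB)
  rw [max_eq_left h6] at h4
  have h7 : (cn c X n : ℚ) = (⌊A⌋ : ℚ) - ⌊B⌋ := by exact_mod_cast h4
  have h8 : |(cn c X n : ℚ) - (X : ℚ) / ((8 * n : ℕ) : ℚ)| ≤ 1 := by
    rw [h7, ← h5, abs_le]
    have a1 := Int.floor_le A
    have a2 := Int.lt_floor_add_one A
    have b1 := Int.floor_le B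
    have b2 := Int.lt_floor_add_one B
    constructor <;> linarith
  have h9 : ((|(cn c X n : ℚ) - (X : ℚ) / ((8 * n : ℕ) : ℚ)| : ℚ) : ℝ) ≤ 1 := by exact_mod_cast h8
  push_cast at h9
  exact h9

theorem cn_tendsto {c : ℕ} (hc8 : c < 8) {n : ℕ} (hn : Odd n) :
    Tendsto (fun X : ℕ => (cn c X n : ℝ) / X) atTop (𝓝 (1 / (8 * n))) := by
  have hn0 : (0 : ℝ) < n := by exact_mod_cast hn.pos
  have h1 : Tendsto (fun X : ℕ => (1 : ℝ) / X) atTop (𝓝 0) := tendsto_one_div_atTop_nhds_zero_nat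
  rw [tendsto_iff_norm_sub_tendsto_zero]
  refine squeeze_zero' (Eventually.of_forall fun _ => norm_nonneg _) ?_ h1
  filter_upwards [eventually_ge_atTop 1] with X hX
  have hX0 : (0 : ℝ) < X := by exact_mod_cast hX
  have h2 := cn_near hc8 hn X
  have e : (cn c X n : ℝ) / X - 1 / (8 * n) = ((cn c X n : ℝ) - X / (8 * n)) / X := by
    field_simp
  rw [e, Real.norm_eq_abs, abs_div, abs_of_pos hX0]
  gcongr

/-- the sum as a sum over the divisors -/
theorem sum_eq (c X : ℕ) :
    ∑ d ∈ (Icc 1 X).filter (fun d => d % 8 = c ∧ Squarefree d), hc d =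
      ∑ n ∈ Icc 1 X, bt n * (cn c X n : ℝ) := by
  have h1 : ∑ d ∈ (Icc 1 X).filter (fun d => d % 8 = c ∧ Squarefree d), hc d =
      ∑ d ∈ (Icc 1 X).filter (fun d => d % 8 = c), fc d := by
    rw [← Finset.filter_filter, Finset.sum_filter]
    refine Finset.sum_congr rfl fun d _ => ?_
    rw [fc_apply]
  rw [h1]
  have h2 : ∀ d ∈ (Icc 1 X).filter (fun d => d % 8 = c),
      fc d = ∑ n ∈ Icc 1 X, if n ∣ d then bt n else 0 := by
    intro d hd
    rw [Finset.mem_filter, Finset.mem_Icc] at hd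
    rw [fc_sum, ← Finset.sum_filter]
    refine Finset.sum_congr ?_ fun _ _ => rfl
    ext n
    rw [Nat.mem_divisors, Finset.mem_filter, Finset.mem_Icc]
    constructor
    · rintro ⟨h3, h4⟩
      exact ⟨⟨Nat.pos_of_dvd_of_pos h3 (by omega), (Nat.le_of_dvd (by omega) h3).trans hd.1.2⟩, h3⟩
    · rintro ⟨h3, h4⟩
      exact ⟨h4, by omega⟩
  rw [Finset.sum_congr rfl h2, Finset.sum_comm]
  refine Finset.sum_congr rfl fun n _ => ?_
  unfold cn
  rw [← Finset.sum_filter, Finset.filter_filter, Finset.sum_const, nsmul_eq_mul, mul_comm]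

/-- **The mean value.** -/
theorem mv_core {c : ℕ} (hc8 : c < 8) (hodd : Odd c) : Tendsto (fun X : ℕ =>
    (∑ d ∈ (Icc 1 X).filter (fun d => d % 8 = c ∧ Squarefree d), hc d) / (X : ℝ)) atTop
    (𝓝 ((∏' p : Nat.Primes, (if (p : ℕ) = 2 then (1 : ℝ) else
      (1 - 1 / ((p : ℕ) : ℝ)) * (1 + (1 - 1 / ((p : ℕ) : ℝ)) ^ 2 / (((p : ℕ) : ℝ) + 1)))) / 8)) := by
  rw [gc_euler, ← tsum_div_const]
  have key : Tendsto (fun X : ℕ => ∑' n : ℕ, bt n * ((cn c X n : ℝ) / X)) atTop
      (𝓝 (∑' n : ℕ, gc n / 8)) := by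
    refine tendsto_tsum_of_dominated_convergence gc_summable (fun n => ?_)
      (Eventually.of_forall fun X n => ?_)
    · by_cases hn : Odd n
      · have h1 := (cn_tendsto hc8 hn).const_mul (bt n)
        have e : gc n / 8 = bt n * (1 / (8 * (n : ℝ))) := by
          unfold gc
          rw [if_pos hn]
          ring
        rw [e]
        exact h1
      · have e : gc n / 8 = 0 := by
          unfold gc
          rw [if_neg hn, zero_div]
        rw [e]
        refine tendsto_const_nhds.congr fun X => ?_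
        rw [cn_even hodd X hn]
        simp
    · by_cases hn : Odd n
      · have hn0 : (0 : ℝ) < n := by exact_mod_cast hn.pos
        have e1 : ‖bt n * ((cn c X n : ℝ) / X)‖ = |bt n| * ((cn c X n : ℝ) / X) := by
          rw [Real.norm_eq_abs, abs_mul, abs_of_nonneg (by positivity : (0 : ℝ) ≤ (cn c X n : ℝ) / X)]
        have e2 : ‖gc n‖ = |bt n| * (n : ℝ)⁻¹ := by
          unfold gc
          rw [if_pos hn, Real.norm_eq_abs, abs_div, Nat.abs_cast, div_eq_mul_inv]
        rw [e1, e2]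
        refine mul_le_mul_of_nonneg_left ?_ (abs_nonneg (bt n))
        rcases Nat.eq_zero_or_pos X with h0 | h0
        · subst h0
          simp
        · have hX0 : (0 : ℝ) < X := by exact_mod_cast h0
          rw [div_le_iff₀ hX0]
          have h2 : (cn c X n : ℝ) ≤ ((X / n : ℕ) : ℝ) := by exact_mod_cast cn_le c X n
          have h3 : ((X / n : ℕ) : ℝ) ≤ (X : ℝ) / n := Nat.cast_div_le
          calc (cn c X n : ℝ) ≤ (X : ℝ) / n := h2.trans h3
            _ = (n : ℝ)⁻¹ * X := by rw [div_eq_mul_inv, mul_comm]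
      · rw [cn_even hodd X hn]
        simp
  refine key.congr fun X => ?_
  rw [sum_eq, Finset.sum_div, tsum_eq_sum (s := Icc 1 X)]
  · refine Finset.sum_congr rfl fun n _ => ?_
    rw [mul_div_assoc]
  · intro n hn
    rw [Finset.mem_Icc, not_and_or, not_le, not_le] at hn
    have : cn c X n = 0 := by
      rcases hn with h | h
      · have h0 : n = 0 := by omega
        subst h0
        exact cn_even hodd X (by simp)
      · have := cn_le c X n
        rw [Nat.div_eq_of_lt h] at this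
        omega
    rw [this]
    simp

end

end Pool.Agent.H88.BR4
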